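import Pool.Agent.Q157.YG.Main

/-!
# The graphs `G_k` of Youngs and Hanson–Toft have no minimal orientation
-/

namespace Pool.Agent.Results.MP_c69494_co.AllK

open Pool.Agent.Q157.YG

/-- For every `k ≥ 4`, no orientation of the graph `G_k` contains exactly one directed path on `k`
vertices: the graph `G_k` has no minimal orientation. -/
theorem result : ∀ k : ℕ, 4 ≤ k → ¬ ∃ O : Vtx k → Vtx k → Prop,
    IsOrientation (graph7 k) O ∧ ∃! p : Fin k → Vtx k, IsDiPath O k p := by
  rintro k hk ⟨O, hO, h⟩
  exact no_minimal_orientation k hk hO h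

end Pool.Agent.Results.MP_c69494_co.AllK
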